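import Pool.Agent.CFC.Ineq

/-!
The Moebius transformations `bst P` of the sphere, and the energy of the images of a
configuration.
-/

namespace Pool.Agent.CFC

open Pool.Agent.Helper15.Thomson

noncomputable section

/-- `√(1 + |P|²)` -/
def pz (P : E3) : ℝ := Real.sqrt (1 + ‖P‖ ^ 2)

/-- The factor. -/
def cf (P x : E3) : ℝ := pz P - inner ℝ P x

/-- A Moebius transformation of the sphere. -/
def bst (P x : E3) : E3 := (cf P x)⁻¹ • (x + (inner ℝ P x / (pz P + 1) - 1) • P)

theorem pz_sq (P : E3) : pz P ^ 2 = 1 + ‖P‖ ^ 2 := Real.sq_sqrt (by positivity)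

theorem pz_pos (P : E3) : 0 < pz P := Real.sqrt_pos.mpr (by positivity)

theorem norm_lt_pz (P : E3) : ‖P‖ < pz P := by
  have h := pz_sq P
  have h0 := pz_pos P
  have h1 := norm_nonneg P
  nlinarith

theorem cf_pos (P : E3) {x : E3} (hx : ‖x‖ = 1) : 0 < cf P x := by
  have h1 := abs_real_inner_le_norm P x
  rw [hx, mul_one] at h1
  have h2 := norm_lt_pz P
  have h3 := le_abs_self (inner ℝ P x)
  unfold cf
  linarith

theorem inner_bst (P : E3) (x y : E3) :
    inner ℝ (x + (inner ℝ P x / (pz P + 1) - 1) • P) (y + (inner ℝ P y / (pz P + 1) - 1) • P) =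
      inner ℝ x y - 1 + cf P x * cf P y := by
  have h0 : pz P + 1 ≠ 0 := by have := pz_pos P; linarith
  have h1 : ‖P‖ ^ 2 = pz P ^ 2 - 1 := by rw [pz_sq]; ring
  rw [inner_add_left, inner_add_right, inner_add_right, real_inner_smul_left,
    real_inner_smul_left, real_inner_smul_right, real_inner_smul_right,
    real_inner_self_eq_norm_sq, h1, real_inner_comm P x]
  unfold cf
  field_simp
  ring

theorem norm_bst (P : E3) {x : E3} (hx : ‖x‖ = 1) : ‖bst P x‖ = 1 := by
  have h1 := inner_bst P x x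
  rw [real_inner_self_eq_norm_sq, real_inner_self_eq_norm_sq, hx] at h1
  have h2 : ‖x + (inner ℝ P x / (pz P + 1) - 1) • P‖ = cf P x := by
    have h3 : ‖x + (inner ℝ P x / (pz P + 1) - 1) • P‖ ^ 2 = cf P x ^ 2 := by
      rw [h1]; ring
    exact (sq_eq_sq₀ (norm_nonneg _) (cf_pos P hx).le).mp h3
  unfold bst
  rw [norm_smul, h2, norm_inv, Real.norm_of_nonneg (cf_pos P hx).le,
    inv_mul_cancel₀ (cf_pos P hx).ne']

theorem dist_bst (P : E3) {x y : E3} (hx : ‖x‖ = 1) (hy : ‖y‖ = 1) :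
    dist (bst P x) (bst P y) ^ 2 * (cf P x * cf P y) = dist x y ^ 2 := by
  have h1 := inner_eq_dist (norm_bst P hx) (norm_bst P hy)
  have h2 := inner_eq_dist hx hy
  have h3 : inner ℝ (bst P x) (bst P y) * (cf P x * cf P y) =
      inner ℝ x y - 1 + cf P x * cf P y := by
    unfold bst
    rw [real_inner_smul_left, real_inner_smul_right, inner_bst]
    have hx' := (cf_pos P hx).ne'
    have hy' := (cf_pos P hy).ne'
    field_simp
  rw [h1, h2] at h3
  linarith

/-- A map which multiplies the squared distances by factors preserves the cross-ratios. -/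
theorem isConf_image {X : Finset E3} {σ : E3 → E3} {c : E3 → ℝ} (hc : ∀ x ∈ X, 0 < c x)
    (h : ∀ x ∈ X, ∀ y ∈ X, dist (σ x) (σ y) ^ 2 * (c x * c y) = dist x y ^ 2)
    [DecidableEq E3] : IsConf σ X (X.image σ) := by
  refine ⟨⟨?_, ?_, ?_⟩, ?_⟩
  · intro x hx
    rw [Finset.coe_image]
    exact ⟨x, hx, rfl⟩
  · intro x hx y hy he
    have e := h x hx y hy
    rw [he, dist_self] at e
    have : dist x y ^ 2 = 0 := by rw [← e]; ring
    exact dist_eq_zero.mp (pow_eq_zero_iff two_ne_zero |>.mp this)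
  · rw [Finset.coe_image]
    exact Set.surjOn_image σ X
  · intro x hx y hy z hz w hw
    have e1 := h x hx y hy
    have e2 := h z hz w hw
    have e3 := h x hx z hz
    have e4 := h y hy w hw
    have px := hc x hx
    have py := hc y hy
    have pz' := hc z hz
    have pw := hc w hw
    have key : (dist (σ x) (σ y) * dist (σ z) (σ w) * (dist x z * dist y w)) ^ 2 =
        (dist x y * dist z w * (dist (σ x) (σ z) * dist (σ y) (σ w))) ^ 2 := by
      have l : (dist (σ x) (σ y) * dist (σ z) (σ w) * (dist x z * dist y w)) ^ 2 =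
          dist (σ x) (σ y) ^ 2 * dist (σ z) (σ w) ^ 2 * (dist x z ^ 2 * dist y w ^ 2) := by ring
      have r : (dist x y * dist z w * (dist (σ x) (σ z) * dist (σ y) (σ w))) ^ 2 =
          dist x y ^ 2 * dist z w ^ 2 * (dist (σ x) (σ z) ^ 2 * dist (σ y) (σ w) ^ 2) := by ring
      rw [l, r, ← e1, ← e2, ← e3, ← e4]
      ring
    exact (sq_eq_sq₀ (by positivity) (by positivity)).mp key

theorem IsConf.comp {X Y Z : Finset E3} {σ τ : E3 → E3} (h : IsConf σ X Y) (h' : IsConf τ Y Z) :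
    IsConf (τ ∘ σ) X Z := by
  refine ⟨h'.1.comp h.1, ?_⟩
  intro x hx y hy z hz w hw
  have e1 := h.2 x hx y hy z hz w hw
  have e2 := h'.2 _ (h.1.mapsTo hx) _ (h.1.mapsTo hy) _ (h.1.mapsTo hz) _ (h.1.mapsTo hw)
  simp only [Function.comp_apply]
  rcases eq_or_ne x y with hxy | hxy
  · rw [hxy, dist_self, dist_self]
    ring
  rcases eq_or_ne z w with hzw | hzw
  · rw [hzw, dist_self, dist_self]
    ring
  rcases eq_or_ne x z with hxz | hxz
  · rw [hxz, dist_self, dist_self]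
    ring
  rcases eq_or_ne y w with hyw | hyw
  · rw [hyw, dist_self, dist_self]
    ring
  have p : ∀ a ∈ X, ∀ b ∈ X, a ≠ b → 0 < dist (σ a) (σ b) := by
    intro a ha b hb hab
    exact dist_pos.mpr fun he => hab (h.1.injOn ha hb he)
  have p1 := p x hx y hy hxy
  have p2 := p z hz w hw hzw
  have p3 := p x hx z hz hxz
  have p4 := p y hy w hw hyw
  have p5 := dist_pos.mpr hxy
  have p6 := dist_pos.mpr hzw
  have p7 := dist_pos.mpr hxz
  have p8 := dist_pos.mpr hyw
  have q : (dist (σ x) (σ y) * dist (σ z) (σ w)) * (dist (σ x) (σ z) * dist (σ y) (σ w)) ≠ 0 := by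
    positivity
  apply mul_right_cancel₀ q
  calc dist (τ (σ x)) (τ (σ y)) * dist (τ (σ z)) (τ (σ w)) * (dist x z * dist y w) *
        ((dist (σ x) (σ y) * dist (σ z) (σ w)) * (dist (σ x) (σ z) * dist (σ y) (σ w)))
      = (dist (τ (σ x)) (τ (σ y)) * dist (τ (σ z)) (τ (σ w)) *
          (dist (σ x) (σ z) * dist (σ y) (σ w))) *
        (dist (σ x) (σ y) * dist (σ z) (σ w) * (dist x z * dist y w)) := by ring
    _ = (dist (σ x) (σ y) * dist (σ z) (σ w) *
          (dist (τ (σ x)) (τ (σ z)) * dist (τ (σ y)) (τ (σ w)))) *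
        (dist x y * dist z w * (dist (σ x) (σ z) * dist (σ y) (σ w))) := by rw [e1, e2]
    _ = _ := by ring

theorem IsConf.symm {X Y : Finset E3} {σ : E3 → E3} (h : IsConf σ X Y) :
    ∃ τ, IsConf τ Y X ∧ (∀ x ∈ X, τ (σ x) = x) ∧ ∀ y ∈ Y, σ (τ y) = y := by
  have hinv := h.1.invOn_invFunOn
  obtain ⟨τ, hτ⟩ : ∃ τ, τ = Function.invFunOn σ (X : Set E3) := ⟨_, rfl⟩
  rw [← hτ] at hinv
  have hbij : Set.BijOn τ Y X := by
    rw [hτ]
    exact (Set.bijOn_comm (h.1.invOn_invFunOn)).mpr h.1 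
  refine ⟨τ, ⟨hbij, ?_⟩, fun x hx => hinv.1 hx, fun y hy => hinv.2 hy⟩
  intro x hx y hy z hz w hw
  have e := h.2 _ (hbij.mapsTo hx) _ (hbij.mapsTo hy) _ (hbij.mapsTo hz) _ (hbij.mapsTo hw)
  rw [hinv.2 hx, hinv.2 hy, hinv.2 hz, hinv.2 hw] at e
  linarith

/-- The energy of the image under `bst P`. -/
def FE (X : Finset E3) (P : E3) : ℝ :=
  (∑ x ∈ X, ∑ y ∈ X, 1 / dist x y * Real.sqrt (cf P x * cf P y)) / 2

theorem energy_bst {X : Finset E3} (hX : ∀ x ∈ X, ‖x‖ = 1) [DecidableEq E3] (P : E3) :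
    energy (X.image (bst P)) = FE X P := by
  have hc : ∀ x ∈ X, 0 < cf P x := fun x hx => cf_pos P (hX x hx)
  have hd : ∀ x ∈ X, ∀ y ∈ X, dist (bst P x) (bst P y) ^ 2 * (cf P x * cf P y) = dist x y ^ 2 :=
    fun x hx y hy => dist_bst P (hX x hx) (hX y hy)
  rw [energy_image (isConf_image hc hd).1]
  unfold FE
  congr 1
  refine Finset.sum_congr rfl fun x hx => Finset.sum_congr rfl fun y hy => ?_
  rw [inv_dist hc hd hx hy]

theorem FE_cont (X : Finset E3) : Continuous (FE X) := by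
  unfold FE cf pz
  fun_prop

theorem FE_nonneg (X : Finset E3) (P : E3) : 0 ≤ FE X P := by
  unfold FE
  positivity

/-- A lower bound of the energy of the image. -/
theorem FE_ge {X : Finset E3} (hX : ∀ x ∈ X, ‖x‖ = 1) (hcard : 3 ≤ X.card) :
    ∃ μ : ℝ, 0 < μ ∧ ∀ P, μ * ‖P‖ ≤ FE X P := by
  classical
  obtain ⟨a, b, c, ha, hb, hc, hab, hac, hbc⟩ := Finset.two_lt_card_iff.mp
    (show 2 < X.card by omega)
  have hlt : ∀ x ∈ X, ∀ y ∈ X, x ≠ y → ‖x + y‖ < 2 := by
    intro x hx y hy hxy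
    have h1 := parallelogram_law_with_norm ℝ x y
    rw [hX x hx, hX y hy] at h1
    have h2 : 0 < ‖x - y‖ := norm_pos_iff.mpr (sub_ne_zero.mpr hxy)
    have h3 := norm_nonneg (x + y)
    nlinarith
  obtain ⟨ν, hν⟩ : ∃ ν, ν = min (2 - ‖a + b‖) (min (2 - ‖a + c‖) (2 - ‖b + c‖)) := ⟨_, rfl⟩
  have hν0 : 0 < ν := by
    rw [hν]
    refine lt_min (sub_pos.mpr (hlt a ha b hb hab)) (lt_min (sub_pos.mpr (hlt a ha c hc hac))
      (sub_pos.mpr (hlt b hb c hc hbc)))
  have hsum : ∀ P x y : E3, ν ≤ 2 - ‖x + y‖ → ν * pz P ≤ cf P x + cf P y := by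
    intro P x y h
    have h1 := real_inner_le_norm P (x + y)
    rw [inner_add_right] at h1
    have h2 := (norm_lt_pz P).le
    have h3 := norm_nonneg (x + y)
    have h4 := pz_pos P
    unfold cf
    nlinarith [mul_le_mul_of_nonneg_right h2 h3]
  refine ⟨ν / 8, by positivity, fun P => ?_⟩
  have hpz := pz_pos P
  have hone : ∀ x ∈ X, ∀ y ∈ X, x ≠ y → ν * pz P / 2 ≤ cf P x → ν * pz P / 2 ≤ cf P y →
      ν / 8 * ‖P‖ ≤ FE X P := by
    intro x hx y hy hxy h1 h2
    have h3 : ν * pz P / 2 ≤ Real.sqrt (cf P x * cf P y) := by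
      apply Real.le_sqrt_of_sq_le
      have : 0 ≤ ν * pz P / 2 := by positivity
      nlinarith
    have h4 : dist x y ≤ 2 := by
      have := norm_sub_le x y
      rw [hX x hx, hX y hy] at this
      rw [dist_eq_norm]
      linarith
    have h5 : 0 < dist x y := dist_pos.mpr hxy
    have h6 : ν * pz P / 4 ≤ 1 / dist x y * Real.sqrt (cf P x * cf P y) := by
      have h7 : 1 / 2 ≤ 1 / dist x y := one_div_le_one_div_of_le h5 h4
      have h8 : 0 ≤ ν * pz P / 2 := by positivity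
      nlinarith [mul_le_mul h7 h3 h8 (by positivity)]
    have h9 : 1 / dist x y * Real.sqrt (cf P x * cf P y) ≤
        ∑ y ∈ X, 1 / dist x y * Real.sqrt (cf P x * cf P y) :=
      Finset.single_le_sum (f := fun y => 1 / dist x y * Real.sqrt (cf P x * cf P y))
        (fun _ _ => by positivity) hy
    have h10 : ∑ y ∈ X, 1 / dist x y * Real.sqrt (cf P x * cf P y) ≤
        ∑ x ∈ X, ∑ y ∈ X, 1 / dist x y * Real.sqrt (cf P x * cf P y) :=
      Finset.single_le_sum
        (f := fun x => ∑ y ∈ X, 1 / dist x y * Real.sqrt (cf P x * cf P y))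
        (fun _ _ => Finset.sum_nonneg fun _ _ => by positivity) hx
    have h11 := (norm_lt_pz P).le
    unfold FE
    nlinarith
  have hab' := hsum P a b (by rw [hν]; exact min_le_left _ _)
  have hac' := hsum P a c (by rw [hν]; exact (min_le_right _ _).trans (min_le_left _ _))
  have hbc' := hsum P b c (by rw [hν]; exact (min_le_right _ _).trans (min_le_right _ _))
  rcases le_or_gt (ν * pz P / 2) (cf P a) with h1 | h1
  · rcases le_or_gt (ν * pz P / 2) (cf P b) with h2 | h2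
    · exact hone a ha b hb hab h1 h2
    · exact hone a ha c hc hac h1 (by linarith)
  · exact hone b hb c hc hbc (by linarith) (by linarith)

theorem FE_min {X : Finset E3} (hX : ∀ x ∈ X, ‖x‖ = 1) (hcard : 3 ≤ X.card) :
    ∃ P, ∀ P', FE X P ≤ FE X P' := by
  obtain ⟨μ, hμ, h⟩ := FE_ge hX hcard
  apply (FE_cont X).exists_forall_le
  exact Filter.tendsto_atTop_mono h ((tendsto_norm_cocompact_atTop (E := E3)).const_mul_atTop hμ)

end

end Pool.Agent.CFC
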