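import Pool.Agent.Helper15.Thomson.Geom

/-!
Conformal equivalence of finite sets of points on the sphere, and equilibria of the Coulomb energy.
-/

namespace Pool.Agent.CFC

open Pool.Agent.Helper15.Thomson

noncomputable section

/-- `σ` maps `X` bijectively onto `Y` and preserves the absolute cross-ratios
`|x - y| |z - w| / (|x - z| |y - w|)`. -/
def IsConf (σ : E3 → E3) (X Y : Finset E3) : Prop :=
  Set.BijOn σ X Y ∧ ∀ x ∈ X, ∀ y ∈ X, ∀ z ∈ X, ∀ w ∈ X,
    dist (σ x) (σ y) * dist (σ z) (σ w) * (dist x z * dist y w) =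
      dist x y * dist z w * (dist (σ x) (σ z) * dist (σ y) (σ w))

/-- Conformal equivalence. -/
def ConfEquiv (X Y : Finset E3) : Prop := ∃ σ, IsConf σ X Y

/-- `X` minimises the Coulomb energy among the `n`-point configurations. -/
def IsMin (n : ℕ) (X : Finset E3) : Prop :=
  IsConfig n X ∧ ∀ Y, IsConfig n Y → energy X ≤ energy Y

/-- `X` is an equilibrium: at every point of `X` the force exerted by the other points is normal to
the sphere. -/
def IsEquil (X : Finset E3) : Prop :=
  ∀ x ∈ X, ∃ c : ℝ, ∑ y ∈ X, (1 / dist x y ^ 3) • (x - y) = c • x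

/-- `S X = ∑ (x + y) / |x - y|`. -/
def bal (X : Finset E3) : E3 := ∑ x ∈ X, ∑ y ∈ X, (1 / dist x y) • (x + y)

end

end Pool.Agent.CFC
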