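import Pool.Agent.CFC.Defs

/-!
Extension of an isometry between finite sets of vectors to an orthogonal transformation, and the
Coulomb energy of an image.
-/

namespace Pool.Agent.CFC

open Pool.Agent.Helper15.Thomson

noncomputable section

/-- Vectors with the same Gram matrix are related by an orthogonal transformation. -/
theorem exists_iso {ι : Type} [Fintype ι] (x y : ι → E3)
    (h : ∀ i j, inner ℝ (x i) (x j) = inner ℝ (y i) (y j)) :
    ∃ T : E3 ≃ₗᵢ[ℝ] E3, ∀ i, T (x i) = y i := by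
  classical
  let Φ : (ι → ℝ) →ₗ[ℝ] E3 := Fintype.linearCombination ℝ x
  let Ψ : (ι → ℝ) →ₗ[ℝ] E3 := Fintype.linearCombination ℝ y
  have hin : ∀ (z : ι → E3) (a : ι → ℝ), inner ℝ (∑ i, a i • z i) (∑ i, a i • z i) =
      ∑ i, ∑ j, a i * (a j * inner ℝ (z i) (z j)) := by
    intro z a
    rw [sum_inner]
    refine Finset.sum_congr rfl fun i _ => ?_
    rw [inner_sum]
    refine Finset.sum_congr rfl fun j _ => ?_
    rw [real_inner_smul_left, real_inner_smul_right]
  have hn : ∀ a, ‖Φ a‖ = ‖Ψ a‖ := by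
    intro a
    have h1 : inner ℝ (Φ a) (Φ a) = inner ℝ (Ψ a) (Ψ a) := by
      change inner ℝ (∑ i, a i • x i) (∑ i, a i • x i) =
        inner ℝ (∑ i, a i • y i) (∑ i, a i • y i)
      rw [hin, hin]
      simp only [h]
    rw [real_inner_self_eq_norm_sq, real_inner_self_eq_norm_sq] at h1
    exact (sq_eq_sq₀ (norm_nonneg _) (norm_nonneg _)).mp h1
  obtain ⟨g, hg⟩ := Φ.rangeRestrict.exists_rightInverse_of_surjective
    (LinearMap.range_eq_top.mpr (LinearMap.surjective_rangeRestrict Φ))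
  have hg' : ∀ s : LinearMap.range Φ, Φ (g s) = s := by
    intro s
    have := LinearMap.congr_fun hg s
    exact congrArg Subtype.val this
  let L : LinearMap.range Φ →ₗᵢ[ℝ] E3 :=
    { toLinearMap := Ψ ∘ₗ g
      norm_map' := by
        intro s
        rw [LinearMap.comp_apply, ← hn, hg']
        rfl }
  refine ⟨L.extend.toLinearIsometryEquiv rfl, fun i => ?_⟩
  have hx : x i = Φ (Pi.single i 1) := by
    change x i = ∑ j, (Pi.single i (1 : ℝ) : ι → ℝ) j • x j
    rw [Finset.sum_eq_single i]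
    · rw [Pi.single_eq_same, one_smul]
    · intro j _ hj
      rw [Pi.single_eq_of_ne hj, zero_smul]
    · intro h
      exact absurd (Finset.mem_univ i) h
  have hy : y i = Ψ (Pi.single i 1) := by
    change y i = ∑ j, (Pi.single i (1 : ℝ) : ι → ℝ) j • y j
    rw [Finset.sum_eq_single i]
    · rw [Pi.single_eq_same, one_smul]
    · intro j _ hj
      rw [Pi.single_eq_of_ne hj, zero_smul]
    · intro h
      exact absurd (Finset.mem_univ i) h
  have hmem : x i ∈ LinearMap.range Φ := ⟨_, hx.symm⟩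
  have h1 : L.extend (x i) = L ⟨x i, hmem⟩ := L.extend_apply ⟨x i, hmem⟩
  change L.extend (x i) = y i
  rw [h1]
  change Ψ (g ⟨x i, hmem⟩) = y i
  rw [hy]
  have h2 : Φ (g ⟨x i, hmem⟩ - Pi.single i 1) = 0 := by
    rw [map_sub, hg', ← hx, sub_self]
  have h3 : ‖Ψ (g ⟨x i, hmem⟩ - Pi.single i 1)‖ = 0 := by
    rw [← hn, h2, norm_zero]
  rw [norm_eq_zero, map_sub, sub_eq_zero] at h3
  exact h3

theorem inner_eq_dist {x y : E3} (hx : ‖x‖ = 1) (hy : ‖y‖ = 1) :
    inner ℝ x y = 1 - dist x y ^ 2 / 2 := by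
  rw [dist_eq_norm, @norm_sub_sq_real, hx, hy]
  ring

/-- A map which preserves the distances is an orthogonal transformation. -/
theorem eqv_of_dist {X Y : Finset E3} (hX : ∀ x ∈ X, ‖x‖ = 1) (hY : ∀ y ∈ Y, ‖y‖ = 1)
    {σ : E3 → E3} (hσ : Set.BijOn σ X Y)
    (h : ∀ x ∈ X, ∀ y ∈ X, dist (σ x) (σ y) = dist x y) : Eqv X Y := by
  obtain ⟨T, hT⟩ := exists_iso (ι := X) (fun x => (x : E3)) (fun x => σ x) (by
    intro x y
    rw [inner_eq_dist (hX x x.2) (hX y y.2),
      inner_eq_dist (hY _ (hσ.mapsTo x.2)) (hY _ (hσ.mapsTo y.2)), h x x.2 y y.2])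
  refine ⟨T, ?_⟩
  rw [← hσ.image_eq]
  apply Set.image_congr
  intro x hx
  exact hT ⟨x, hx⟩

/-- The energy of an image. -/
theorem energy_image {X Y : Finset E3} {σ : E3 → E3} (hσ : Set.BijOn σ X Y) :
    energy Y = (∑ x ∈ X, ∑ y ∈ X, 1 / dist (σ x) (σ y)) / 2 := by
  classical
  have hY : Y = X.image σ := by
    apply Finset.coe_injective
    rw [Finset.coe_image, hσ.image_eq]
  rw [energy_eq]
  unfold inter
  rw [hY, Finset.sum_image (fun a ha b hb h => hσ.injOn ha hb h)]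
  congr 1
  refine Finset.sum_congr rfl fun x _ => ?_
  rw [Finset.sum_image (fun a ha b hb h => hσ.injOn ha hb h)]

/-- An equilibrium is balanced. -/
theorem bal_of_equil {X : Finset E3} (hX : ∀ x ∈ X, ‖x‖ = 1) (h : IsEquil X) : bal X = 0 := by
  have h1 : ∀ x ∈ X, ∑ y ∈ X, (1 / dist x y ^ 3) • (x - y) =
      ((∑ y ∈ X, 1 / dist x y) / 2) • x := by
    intro x hx
    obtain ⟨c, hc⟩ := h x hx
    have h2 : inner ℝ x (∑ y ∈ X, (1 / dist x y ^ 3) • (x - y)) = c := by
      rw [hc, real_inner_smul_right, real_inner_self_eq_norm_sq, hX x hx]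
      ring
    have h3 : inner ℝ x (∑ y ∈ X, (1 / dist x y ^ 3) • (x - y)) = (∑ y ∈ X, 1 / dist x y) / 2 := by
      rw [inner_sum, Finset.sum_div]
      refine Finset.sum_congr rfl fun y hy => ?_
      rw [real_inner_smul_right, inner_sub_right, real_inner_self_eq_norm_sq, hX x hx,
        inner_eq_dist (hX x hx) (hX y hy)]
      rcases eq_or_ne (dist x y) 0 with h0 | h0
      · rw [h0]
        ring
      · field_simp
        ring
    rw [hc, ← h2, h3]
  have h2 : ∑ x ∈ X, ∑ y ∈ X, (1 / dist x y ^ 3) • (x - y) = 0 := by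
    have e1 : ∑ x ∈ X, ∑ y ∈ X, (1 / dist x y ^ 3) • (x - y) =
        - ∑ x ∈ X, ∑ y ∈ X, (1 / dist x y ^ 3) • (x - y) := by
      conv_lhs => rw [Finset.sum_comm]
      rw [← Finset.sum_neg_distrib]
      refine Finset.sum_congr rfl fun x _ => ?_
      rw [← Finset.sum_neg_distrib]
      refine Finset.sum_congr rfl fun y _ => ?_
      rw [← smul_neg, neg_sub, dist_comm]
    rw [eq_neg_iff_add_eq_zero, ← two_smul ℝ] at e1
    exact (smul_eq_zero.mp e1).resolve_left two_ne_zero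
  rw [Finset.sum_congr rfl h1] at h2
  have h3 : bal X = (4 : ℝ) • ∑ x ∈ X, ((∑ y ∈ X, 1 / dist x y) / 2) • x := by
    have e1 : ∀ x, ((∑ y ∈ X, 1 / dist x y) / 2) • x =
        (1 / 2 : ℝ) • ∑ y ∈ X, (1 / dist x y) • x := by
      intro x
      rw [← Finset.sum_smul, smul_smul]
      congr 1
      ring
    unfold bal
    simp only [e1, smul_add, Finset.sum_add_distrib]
    have e2 : ∑ x ∈ X, ∑ y ∈ X, (1 / dist x y) • y = ∑ x ∈ X, ∑ y ∈ X, (1 / dist x y) • x := by
      rw [Finset.sum_comm]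
      refine Finset.sum_congr rfl fun x _ => Finset.sum_congr rfl fun y _ => ?_
      rw [dist_comm]
    rw [e2, ← Finset.smul_sum, smul_smul, ← two_smul ℝ]
    congr 1
    norm_num
  rw [h3, h2, smul_zero]

end

end Pool.Agent.CFC
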