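import Pool.Agent.CFC.Ext

/-!
A map which preserves the absolute cross-ratios multiplies the squared distances by a product of
factors of the two points; the factors are of the form `p - ⟪P, x⟫` with `p^2 - |P|^2 ≥ 1`.
-/

namespace Pool.Agent.CFC

open Pool.Agent.Helper15.Thomson

noncomputable section

/-- The factors. -/
theorem exists_fac {X Y : Finset E3} {σ : E3 → E3} (h : IsConf σ X Y) (hX : 2 ≤ X.card) :
    ∃ c : E3 → ℝ, (∀ x ∈ X, 0 < c x) ∧ ∀ x ∈ X, ∀ y ∈ X,
      dist (σ x) (σ y) ^ 2 * (c x * c y) = dist x y ^ 2 := by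
  classical
  obtain ⟨hσ, hcr⟩ := h
  have hne : ∀ x ∈ X, ∀ y ∈ X, x ≠ y → σ x ≠ σ y := by
    intro x hx y hy hxy he
    exact hxy (hσ.injOn hx hy he)
  have hd : ∀ x y : E3, x ≠ y → 0 < dist x y := fun x y hxy => dist_pos.mpr hxy
  rcases Nat.lt_or_ge 2 X.card with h3 | h3
  · obtain ⟨a, b, c, ha, hb, hc, hab, hac, hbc⟩ := Finset.two_lt_card_iff.mp h3
    obtain ⟨r, hr⟩ : ∃ r : E3 → E3 → ℝ, r = fun x y => dist x y / dist (σ x) (σ y) := ⟨_, rfl⟩
    have hrp : ∀ x ∈ X, ∀ y ∈ X, x ≠ y → 0 < r x y := by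
      intro x hx y hy hxy
      rw [hr]
      exact div_pos (hd _ _ hxy) (hd _ _ (hne x hx y hy hxy))
    have hrs : ∀ x y, r x y = r y x := by
      intro x y
      rw [hr]
      simp only [dist_comm]
    have hrc : ∀ x ∈ X, ∀ y ∈ X, ∀ z ∈ X, ∀ w ∈ X, x ≠ y → z ≠ w → x ≠ z → y ≠ w →
        r x y * r z w = r x z * r y w := by
      intro x hx y hy z hz w hw h1 h2 h3 h4
      have e := hcr x hx y hy z hz w hw
      have p1 := hd _ _ (hne x hx y hy h1)
      have p2 := hd _ _ (hne z hz w hw h2)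
      have p3 := hd _ _ (hne x hx z hz h3)
      have p4 := hd _ _ (hne y hy w hw h4)
      rw [hr]
      simp only
      rw [div_mul_div_comm, div_mul_div_comm, div_eq_div_iff (by positivity) (by positivity)]
      linarith
    have key : ∀ x ∈ X, ∀ y ∈ X, x ≠ y → x ≠ a → y ≠ a →
        r x a * r y a * r b c = r a b * r a c * r x y := by
      have half : ∀ x ∈ X, ∀ y ∈ X, x ≠ y → x ≠ a → y ≠ a → x ≠ b →
          r x a * r y a * r b c = r a b * r a c * r x y := by
        intro x hx y hy hxy hxa hya hxb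
        have e1 := hrc x hx a ha b hb c hc hxa hbc hxb hac
        have e2 := hrc y hy a ha x hx b hb hya hxb (Ne.symm hxy) hab
        calc r x a * r y a * r b c = r y a * (r x a * r b c) := by ring
          _ = r y a * (r x b * r a c) := by rw [e1]
          _ = (r y a * r x b) * r a c := by ring
          _ = (r y x * r a b) * r a c := by rw [e2]
          _ = r a b * r a c * r x y := by rw [hrs y x]; ring
      intro x hx y hy hxy hxa hya
      rcases ne_or_eq x b with hxb | hxb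
      · exact half x hx y hy hxy hxa hya hxb
      · have hyb : y ≠ b := fun h => hxy (hxb.trans h.symm)
        have e := half y hy x hx (Ne.symm hxy) hya hxa hyb
        rw [hrs x y, ← e]
        ring
    have hs : 0 < r a b * r a c / r b c :=
      div_pos (mul_pos (hrp a ha b hb hab) (hrp a ha c hc hac)) (hrp b hb c hc hbc)
    obtain ⟨s, hsd⟩ : ∃ s, s = r a b * r a c / r b c := ⟨_, rfl⟩
    rw [← hsd] at hs
    have hsb : s * r b c = r a b * r a c := by
      rw [hsd, div_mul_cancel₀ _ (hrp b hb c hc hbc).ne']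
    have key2 : ∀ x ∈ X, ∀ y ∈ X, x ≠ y → x ≠ a → y ≠ a → r x a * r y a = s * r x y := by
      intro x hx y hy h1 h2 h3
      have e := key x hx y hy h1 h2 h3
      rw [← hsb] at e
      have hp := hrp b hb c hc hbc
      have e' : (r x a * r y a) * r b c = (s * r x y) * r b c := by
        rw [e]; ring
      exact mul_right_cancel₀ hp.ne' e'
    have fin : ∀ x ∈ X, ∀ y ∈ X, x ≠ y →
        (if x = a then s else r x a ^ 2 / s) * (if y = a then s else r y a ^ 2 / s) =
          r x y ^ 2 := by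
      intro x hx y hy hxy
      by_cases hxa : x = a
      · have hya : y ≠ a := fun h => hxy (hxa.trans h.symm)
        rw [if_pos hxa, if_neg hya, hxa, hrs a y]
        field_simp
      · by_cases hya : y = a
        · rw [if_neg hxa, if_pos hya, hya]
          field_simp
        · rw [if_neg hxa, if_neg hya]
          have e := key2 x hx y hy hxy hxa hya
          have e3 : r x a ^ 2 / s * (r y a ^ 2 / s) = (r x a * r y a) ^ 2 / s ^ 2 := by
            field_simp
          rw [e3, e]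
          field_simp
    refine ⟨fun x => if x = a then s else r x a ^ 2 / s, ?_, ?_⟩
    · intro x hx
      by_cases hxa : x = a
      · simp only [if_pos hxa]
        exact hs
      · simp only [if_neg hxa]
        exact div_pos (pow_pos (hrp x hx a ha hxa) 2) hs
    · intro x hx y hy
      rcases eq_or_ne x y with hxy | hxy
      · rw [hxy, dist_self, dist_self]
        ring
      · simp only
        rw [fin x hx y hy hxy, hr]
        simp only
        have p1 := hd _ _ (hne x hx y hy hxy)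
        field_simp
  · have h2 : X.card = 2 := le_antisymm h3 hX
    obtain ⟨a, b, hab, hXab⟩ := Finset.card_eq_two.mp h2
    have ha : a ∈ X := by rw [hXab]; exact Finset.mem_insert_self _ _
    have hb : b ∈ X := by rw [hXab]; exact Finset.mem_insert_of_mem (Finset.mem_singleton_self _)
    have p := hd _ _ (hne a ha b hb hab)
    have q := hd _ _ hab
    refine ⟨fun _ => dist a b / dist (σ a) (σ b), fun x _ => div_pos q p, ?_⟩
    intro x hx y hy
    rcases eq_or_ne x y with hxy | hxy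
    · rw [hxy, dist_self, dist_self]
      ring
    · have hx' : x = a ∨ x = b := by
        rw [hXab, Finset.mem_insert, Finset.mem_singleton] at hx
        exact hx
      have hy' : y = a ∨ y = b := by
        rw [hXab, Finset.mem_insert, Finset.mem_singleton] at hy
        exact hy
      have : dist (σ x) (σ y) = dist (σ a) (σ b) ∧ dist x y = dist a b := by
        rcases hx' with rfl | rfl <;> rcases hy' with rfl | rfl
        · exact absurd rfl hxy
        · exact ⟨rfl, rfl⟩
        · exact ⟨dist_comm _ _, dist_comm _ _⟩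
        · exact absurd rfl hxy
      rw [this.1, this.2]
      field_simp

/-- The Lorentz form. -/
def BL : LinearMap.BilinForm ℝ (ℝ × E3) :=
  (innerₗ E3).compl₁₂ (LinearMap.snd ℝ ℝ E3) (LinearMap.snd ℝ ℝ E3) -
    (LinearMap.mul ℝ ℝ).compl₁₂ (LinearMap.fst ℝ ℝ E3) (LinearMap.fst ℝ ℝ E3)

theorem BL_apply (v w : ℝ × E3) : BL v w = inner ℝ v.2 w.2 - v.1 * w.1 := rfl

theorem BL_symm (v w : ℝ × E3) : BL v w = BL w v := by
  rw [BL_apply, BL_apply, real_inner_comm, mul_comm]

/-- A vector orthogonal to a timelike vector is spacelike. -/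
theorem BL_time {t w : ℝ × E3} (ht : BL t t < 0) (hw : BL w t = 0) :
    0 ≤ BL w w ∧ (BL w w = 0 → w = 0) := by
  rw [BL_apply] at ht hw
  rw [BL_apply]
  rw [real_inner_self_eq_norm_sq] at ht
  rw [real_inner_self_eq_norm_sq]
  have h1 : |inner ℝ w.2 t.2| ≤ ‖w.2‖ * ‖t.2‖ := abs_real_inner_le_norm _ _
  have h2 : inner ℝ w.2 t.2 = w.1 * t.1 := by linarith
  rw [h2, abs_mul] at h1
  have h3 : ‖t.2‖ < |t.1| := by
    have : ‖t.2‖ ^ 2 < |t.1| ^ 2 := by rw [sq_abs]; nlinarith
    exact lt_of_pow_lt_pow_left₀ 2 (abs_nonneg _) this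
  have h0 : 0 ≤ ‖t.2‖ := norm_nonneg _
  have hw2 : 0 ≤ ‖w.2‖ := norm_nonneg _
  have h4 : |w.1| ≤ ‖w.2‖ := by
    by_contra hc
    push Not at hc
    have : ‖w.2‖ * ‖t.2‖ < |w.1| * |t.1| := by
      have := mul_le_mul_of_nonneg_left h3.le hw2
      nlinarith
    linarith
  have h5 : w.1 * w.1 = |w.1| ^ 2 := by rw [sq_abs, sq]
  refine ⟨by rw [h5]; nlinarith [abs_nonneg w.1], fun h => ?_⟩
  rw [h5] at h
  have h6 : |w.1| = ‖w.2‖ := by
    have : |w.1| ^ 2 = ‖w.2‖ ^ 2 := by linarith
    exact (sq_eq_sq₀ (abs_nonneg _) hw2).mp this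
  rw [h6] at h1
  have h7 : ‖w.2‖ = 0 := by
    by_contra hc
    have : 0 < ‖w.2‖ := lt_of_le_of_ne hw2 (Ne.symm hc)
    have := mul_lt_mul_of_pos_left h3 this
    linarith
  have h8 : w.1 = 0 := by
    rw [h7] at h6
    exact abs_eq_zero.mp h6
  exact Prod.ext h8 (norm_eq_zero.mp h7)

/-- The factors are of the form `p - ⟪P, x⟫`. -/
theorem fac_lin {X : Finset E3} (hX : ∀ x ∈ X, ‖x‖ = 1) {a b : E3} (ha : a ∈ X) (hb : b ∈ X)
    (hab : a ≠ b) {σ : E3 → E3} (hσ : ∀ x ∈ X, ‖σ x‖ = 1) {c : E3 → ℝ} (hc : ∀ x ∈ X, 0 < c x)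
    (h : ∀ x ∈ X, ∀ y ∈ X, dist (σ x) (σ y) ^ 2 * (c x * c y) = dist x y ^ 2) :
    ∃ (p : ℝ) (P : E3), 0 < p ∧ ‖P‖ ^ 2 + 1 ≤ p ^ 2 ∧ ∀ x ∈ X, c x = p - inner ℝ P x := by
  obtain ⟨N, hN⟩ : ∃ N : E3 → ℝ × E3, N = fun x => (c x, c x • σ x) := ⟨_, rfl⟩
  obtain ⟨M, hM⟩ : ∃ M : E3 → ℝ × E3, M = fun x => (1, x) := ⟨_, rfl⟩
  have hg : ∀ x ∈ X, ∀ y ∈ X, BL (N x) (N y) = BL (M x) (M y) := by
    intro x hx y hy
    rw [BL_apply, BL_apply, hN, hM]
    simp only
    rw [real_inner_smul_left, real_inner_smul_right, inner_eq_dist (hσ x hx) (hσ y hy),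
      inner_eq_dist (hX x hx) (hX y hy), ← h x hx y hy]
    ring
  have hMd : ∀ x ∈ X, ∀ y ∈ X, BL (M x) (M y) = - dist x y ^ 2 / 2 := by
    intro x hx y hy
    rw [BL_apply, hM]
    simp only
    rw [inner_eq_dist (hX x hx) (hX y hy)]
    ring
  have htau : BL (N a + N b) (N a + N b) < 0 := by
    have e : BL (N a + N b) (N a + N b) =
        BL (N a) (N a) + BL (N b) (N b) + 2 * BL (N a) (N b) := by
      simp only [map_add, LinearMap.add_apply]
      rw [BL_symm (N b) (N a)]
      ring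
    rw [e, hg a ha a ha, hg b hb b hb, hg a ha b hb, hMd a ha a ha, hMd b hb b hb, hMd a ha b hb,
      dist_self, dist_self]
    have := pow_pos (dist_pos.mpr hab) 2
    linarith
  let W : Submodule ℝ (ℝ × E3) := Submodule.span ℝ (N '' X)
  have hNW : ∀ x ∈ X, N x ∈ W := fun x hx => Submodule.subset_span ⟨x, hx, rfl⟩
  have htW : N a + N b ∈ W := Submodule.add_mem _ (hNW a ha) (hNW b hb)
  have hrefl : BL.IsRefl := by
    intro v w hvw
    rw [BL_symm]
    exact hvw
  have hdis : Disjoint W (BL.orthogonal W) := by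
    rw [Submodule.disjoint_def]
    intro w hw hw'
    rw [LinearMap.BilinForm.mem_orthogonal_iff] at hw'
    have e1 : BL w (N a + N b) = 0 := by
      rw [BL_symm]
      exact hw' _ htW
    have e2 : BL w w = 0 := hw' w hw
    exact (BL_time htau e1).2 e2
  have hcompl := (LinearMap.BilinForm.isCompl_orthogonal_iff_disjoint hrefl).mpr hdis
  have htop : ((1 : ℝ), (0 : E3)) ∈ W ⊔ BL.orthogonal W := by
    rw [hcompl.sup_eq_top]
    exact Submodule.mem_top
  obtain ⟨w₀, hw₀, v, hv, hwv⟩ := Submodule.mem_sup.mp htop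
  rw [LinearMap.BilinForm.mem_orthogonal_iff] at hv
  obtain ⟨α, hα⟩ := (Submodule.mem_span_image_finset_iff_exists_fun' ℝ).mp hw₀
  obtain ⟨q, hq⟩ : ∃ q : ℝ × E3, q = ∑ x ∈ X, α x • M x := ⟨_, rfl⟩
  have hqM : ∀ y ∈ X, BL q (M y) = - c y := by
    intro y hy
    have e1 : BL q (M y) = BL w₀ (N y) := by
      rw [hq, ← hα, map_sum, LinearMap.sum_apply, map_sum, LinearMap.sum_apply]
      refine Finset.sum_congr rfl fun x hx => ?_
      rw [map_smul, LinearMap.smul_apply, map_smul, LinearMap.smul_apply, hg x hx y hy]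
    have e2 : BL ((1 : ℝ), (0 : E3)) (N y) = BL w₀ (N y) := by
      rw [← hwv, map_add, LinearMap.add_apply, BL_symm v, hv _ (hNW y hy), add_zero]
    rw [e1, ← e2, BL_apply, hN]
    simp
  have hqq : BL q q ≤ -1 := by
    have e1 : BL q q = BL w₀ w₀ := by
      have e : ∀ F G : E3 → ℝ × E3, (∀ x ∈ X, ∀ y ∈ X, BL (F x) (F y) = BL (G x) (G y)) →
          BL (∑ x ∈ X, α x • F x) (∑ x ∈ X, α x • F x) =
            BL (∑ x ∈ X, α x • G x) (∑ x ∈ X, α x • G x) := by
        intro F G hFG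
        simp only [map_sum, LinearMap.sum_apply, map_smul, LinearMap.smul_apply]
        refine Finset.sum_congr rfl fun x hx => ?_
        congr 1
        refine Finset.sum_congr rfl fun y hy => ?_
        rw [hFG y hy x hx]
      rw [hq, ← hα]
      exact e M N (fun x hx y hy => (hg x hx y hy).symm)
    have e2 : BL ((1 : ℝ), (0 : E3)) ((1 : ℝ), (0 : E3)) = BL w₀ w₀ + BL v v := by
      rw [← hwv]
      simp only [map_add, LinearMap.add_apply]
      rw [BL_symm v w₀, hv w₀ hw₀]
      ring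
    have e3 : BL ((1 : ℝ), (0 : E3)) ((1 : ℝ), (0 : E3)) = -1 := by
      rw [BL_apply]
      simp
    have e4 : 0 ≤ BL v v := by
      apply (BL_time htau _).1
      rw [BL_symm]
      exact hv _ htW
    rw [e1]
    linarith
  have hlin : ∀ x ∈ X, c x = q.1 - inner ℝ q.2 x := by
    intro x hx
    have e := hqM x hx
    rw [BL_apply, hM] at e
    simp only [mul_one] at e
    linarith
  have hn : ‖q.2‖ ^ 2 + 1 ≤ q.1 ^ 2 := by
    rw [BL_apply, real_inner_self_eq_norm_sq] at hqq
    nlinarith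
  refine ⟨q.1, q.2, ?_, hn, hlin⟩
  by_contra hneg
  push Not at hneg
  have e1 := hc a ha
  rw [hlin a ha] at e1
  have e2 : |inner ℝ q.2 a| ≤ ‖q.2‖ * ‖a‖ := abs_real_inner_le_norm _ _
  rw [hX a ha, mul_one] at e2
  have e3 : ‖q.2‖ < |q.1| := by
    have : ‖q.2‖ ^ 2 < |q.1| ^ 2 := by rw [sq_abs]; linarith
    exact lt_of_pow_lt_pow_left₀ 2 (abs_nonneg _) this
  rw [abs_of_nonpos hneg] at e3
  have e4 := neg_abs_le (inner ℝ q.2 a)
  linarith

end

end Pool.Agent.CFC
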