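import Pool.Agent.CFC.Fac

/-!
A balanced configuration has the least energy in its conformal class.
-/

namespace Pool.Agent.CFC

open Pool.Agent.Helper15.Thomson

noncomputable section

theorem exp_le_cosh {t : ℝ} (ht : |t| ≤ 1) (s : ℝ) :
    Real.exp (-(t * s)) ≤ Real.cosh s - t * Real.sinh s := by
  obtain ⟨h1, h2⟩ := abs_le.mp ht
  have h := convexOn_exp.2 (Set.mem_univ s) (Set.mem_univ (-s))
    (show 0 ≤ (1 - t) / 2 by linarith) (show 0 ≤ (1 + t) / 2 by linarith) (by ring)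
  simp only [smul_eq_mul] at h
  have e1 : (1 - t) / 2 * s + (1 + t) / 2 * -s = -(t * s) := by ring
  rw [e1] at h
  rw [Real.cosh_eq, Real.sinh_eq]
  linarith

theorem exp_lin {p : ℝ} {P : E3} (hp : 0 < p) (h : ‖P‖ ^ 2 + 1 ≤ p ^ 2) :
    ∃ v : E3, ∀ x : E3, ‖x‖ = 1 → Real.exp (-inner ℝ v x) ≤ p - inner ℝ P x := by
  obtain ⟨s, hs⟩ : ∃ s, s = Real.arsinh ‖P‖ := ⟨_, rfl⟩
  have hsinh : Real.sinh s = ‖P‖ := by rw [hs, Real.sinh_arsinh]
  have hcosh : Real.cosh s ≤ p := by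
    have h1 := Real.cosh_sq s
    rw [hsinh] at h1
    have h2 : Real.cosh s ^ 2 ≤ p ^ 2 := by linarith
    exact le_of_sq_le_sq h2 hp.le
  refine ⟨(s / ‖P‖) • P, fun x hx => ?_⟩
  have habs : |inner ℝ P x| ≤ ‖P‖ := by
    have := abs_real_inner_le_norm P x
    rwa [hx, mul_one] at this
  obtain ⟨t, ht⟩ : ∃ t, t = inner ℝ P x / ‖P‖ := ⟨_, rfl⟩
  have ht1 : |t| ≤ 1 := by
    rw [ht, abs_div, abs_norm]
    exact div_le_one_of_le₀ habs (norm_nonneg _)
  have ht2 : inner ℝ P x = t * ‖P‖ := by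
    rcases eq_or_ne ‖P‖ 0 with h0 | h0
    · rw [h0] at habs
      rw [h0, mul_zero]
      exact abs_nonpos_iff.mp habs
    · rw [ht]
      field_simp
  have e1 : inner ℝ ((s / ‖P‖) • P) x = t * s := by
    rw [real_inner_smul_left, ht]
    ring
  rw [e1, ht2, ← hsinh]
  have := exp_le_cosh ht1 s
  linarith

theorem inner_bal (X : Finset E3) (v : E3) :
    inner ℝ v (bal X) = ∑ x ∈ X, ∑ y ∈ X, 1 / dist x y * inner ℝ v (x + y) := by
  unfold bal
  rw [inner_sum]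
  refine Finset.sum_congr rfl fun x _ => ?_
  rw [inner_sum]
  refine Finset.sum_congr rfl fun y _ => ?_
  rw [real_inner_smul_right]

theorem energy_sum (X : Finset E3) : energy X = (∑ x ∈ X, ∑ y ∈ X, 1 / dist x y) / 2 :=
  energy_eq X

/-- The reciprocal distances of the images. -/
theorem inv_dist {X : Finset E3} {σ : E3 → E3} {c : E3 → ℝ} (hc : ∀ x ∈ X, 0 < c x)
    (h : ∀ x ∈ X, ∀ y ∈ X, dist (σ x) (σ y) ^ 2 * (c x * c y) = dist x y ^ 2) {x y : E3}
    (hx : x ∈ X) (hy : y ∈ X) :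
    1 / dist (σ x) (σ y) = 1 / dist x y * Real.sqrt (c x * c y) := by
  have hcc : 0 < c x * c y := mul_pos (hc x hx) (hc y hy)
  have h1 : dist (σ x) (σ y) * Real.sqrt (c x * c y) = dist x y := by
    have h2 : (dist (σ x) (σ y) * Real.sqrt (c x * c y)) ^ 2 = dist x y ^ 2 := by
      rw [mul_pow, Real.sq_sqrt hcc.le, h x hx y hy]
    exact (sq_eq_sq₀ (by positivity) dist_nonneg).mp h2
  have hs : 0 < Real.sqrt (c x * c y) := Real.sqrt_pos.mpr hcc
  rw [← h1]
  rcases eq_or_ne (dist (σ x) (σ y)) 0 with h0 | h0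
  · rw [h0]
    simp
  · field_simp

/-- A balanced configuration has the least energy in its conformal class. -/
theorem bal_least {X Y : Finset E3} (hX : ∀ x ∈ X, ‖x‖ = 1) (hY : ∀ y ∈ Y, ‖y‖ = 1)
    (hcard : 2 ≤ X.card) {σ : E3 → E3} (hσ : IsConf σ X Y) (hb : bal X = 0) :
    energy X ≤ energy Y ∧
      (energy Y ≤ energy X → ∀ x ∈ X, ∀ y ∈ X, dist (σ x) (σ y) = dist x y) := by
  classical
  obtain ⟨c, hc, hcd⟩ := exists_fac hσ hcard
  obtain ⟨a, ha, b, hb', hab⟩ := Finset.one_lt_card.mp (show 1 < X.card by omega)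
  have hσ1 : ∀ x ∈ X, ‖σ x‖ = 1 := fun x hx => hY _ (hσ.1.mapsTo hx)
  obtain ⟨p, P, hp, hP, hcl⟩ := fac_lin hX ha hb' hab hσ1 hc hcd
  obtain ⟨v, hv⟩ := exp_lin hp hP
  have hroot : ∀ x ∈ X, ∀ y ∈ X,
      Real.exp (-inner ℝ v (x + y) / 2) ≤ Real.sqrt (c x * c y) := by
    intro x hx y hy
    apply Real.le_sqrt_of_sq_le
    rw [← Real.exp_nat_mul, inner_add_right]
    have e : ((2 : ℕ) : ℝ) * (-(inner ℝ v x + inner ℝ v y) / 2) =
        -inner ℝ v x + -inner ℝ v y := by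
      push_cast
      ring
    rw [e, Real.exp_add, hcl x hx, hcl y hy]
    exact mul_le_mul (hv x (hX x hx)) (hv y (hX y hy)) (Real.exp_pos _).le
      (by rw [← hcl x hx]; exact (hc x hx).le)
  have hterm : ∀ x ∈ X, ∀ y ∈ X, 1 / dist x y * (1 - inner ℝ v (x + y) / 2) ≤
      1 / dist (σ x) (σ y) := by
    intro x hx y hy
    rw [inv_dist hc hcd hx hy]
    apply mul_le_mul_of_nonneg_left _ (by positivity)
    have h1 := Real.add_one_le_exp (-inner ℝ v (x + y) / 2)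
    have h2 := hroot x hx y hy
    linarith
  have hsum : ∑ x ∈ X, ∑ y ∈ X, 1 / dist x y * (1 - inner ℝ v (x + y) / 2) =
      ∑ x ∈ X, ∑ y ∈ X, 1 / dist x y := by
    have e := inner_bal X v
    rw [hb, inner_zero_right] at e
    have e2 : ∑ x ∈ X, ∑ y ∈ X, 1 / dist x y * (1 - inner ℝ v (x + y) / 2) =
        ∑ x ∈ X, ∑ y ∈ X, 1 / dist x y -
          (∑ x ∈ X, ∑ y ∈ X, 1 / dist x y * inner ℝ v (x + y)) / 2 := by
      rw [Finset.sum_div, ← Finset.sum_sub_distrib]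
      refine Finset.sum_congr rfl fun x _ => ?_
      rw [Finset.sum_div, ← Finset.sum_sub_distrib]
      refine Finset.sum_congr rfl fun y _ => ?_
      ring
    rw [e2, ← e]
    ring
  have hE : energy Y = (∑ x ∈ X, ∑ y ∈ X, 1 / dist (σ x) (σ y)) / 2 := energy_image hσ.1
  have hle : ∑ x ∈ X, ∑ y ∈ X, 1 / dist x y ≤ ∑ x ∈ X, ∑ y ∈ X, 1 / dist (σ x) (σ y) := by
    rw [← hsum]
    exact Finset.sum_le_sum fun x hx => Finset.sum_le_sum fun y hy => hterm x hx y hy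
  refine ⟨by rw [hE, energy_sum]; linarith, fun hge => ?_⟩
  rw [hE, energy_sum X] at hge
  have heq : ∑ x ∈ X, ∑ y ∈ X, 1 / dist x y * (1 - inner ℝ v (x + y) / 2) =
      ∑ x ∈ X, ∑ y ∈ X, 1 / dist (σ x) (σ y) := by
    rw [hsum]
    linarith
  have heq2 := (Finset.sum_eq_sum_iff_of_le
    (fun x hx => Finset.sum_le_sum fun y hy => hterm x hx y hy)).mp heq
  intro x hx y hy
  rcases eq_or_ne x y with hxy | hxy
  · rw [hxy, dist_self, dist_self]
  have heq3 := (Finset.sum_eq_sum_iff_of_le (fun y hy => hterm x hx y hy)).mp (heq2 x hx) y hy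
  have hdp : 0 < dist x y := dist_pos.mpr hxy
  rw [inv_dist hc hcd hx hy] at heq3
  have h1 : 1 - inner ℝ v (x + y) / 2 = Real.sqrt (c x * c y) :=
    mul_left_cancel₀ (by positivity) heq3
  have h2 := hroot x hx y hy
  have h3 : -inner ℝ v (x + y) / 2 = 0 := by
    by_contra hne
    have := Real.add_one_lt_exp hne
    linarith
  have h4 : Real.sqrt (c x * c y) = 1 := by
    rw [← h1]
    linarith
  have h5 := inv_dist hc hcd hx hy
  rw [h4, mul_one] at h5
  have h6 : dist x y = dist (σ x) (σ y) := by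
    have := congrArg (fun z => 1 / z) h5
    simpa using this.symm
  exact h6.symm

end

end Pool.Agent.CFC
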