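import Pool.Agent.CFC.Boost

/-!
Every conformal class contains exactly one configuration of least Coulomb energy.
-/

namespace Pool.Agent.CFC

open Pool.Agent.Helper15.Thomson

noncomputable section

theorem IsConf.card {X Y : Finset E3} {σ : E3 → E3} (h : IsConf σ X Y) : Y.card = X.card := by
  classical
  have hY : Y = X.image σ := by
    apply Finset.coe_injective
    rw [Finset.coe_image, h.1.image_eq]
  rw [hY, Finset.card_image_of_injOn h.1.injOn]

/-- The minimum of `FE` is the least energy in the conformal class. -/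
theorem least {X : Finset E3} (hX : ∀ x ∈ X, ‖x‖ = 1) (hcard : 2 ≤ X.card) {P : E3}
    (hP : ∀ P', FE X P ≤ FE X P') {Z : Finset E3} (hZ : ∀ z ∈ Z, ‖z‖ = 1) {σ : E3 → E3}
    (hσ : IsConf σ X Z) : FE X P ≤ energy Z := by
  obtain ⟨c, hc, hcd⟩ := exists_fac hσ hcard
  obtain ⟨a, ha, b, hb', hab⟩ := Finset.one_lt_card.mp (show 1 < X.card by omega)
  have hσ1 : ∀ x ∈ X, ‖σ x‖ = 1 := fun x hx => hZ _ (hσ.1.mapsTo hx)
  obtain ⟨p, R, hp, hR, hcl⟩ := fac_lin hX ha hb' hab hσ1 hc hcd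
  obtain ⟨κ, hκ⟩ : ∃ κ, κ = Real.sqrt (p ^ 2 - ‖R‖ ^ 2) := ⟨_, rfl⟩
  have hκ2 : κ ^ 2 = p ^ 2 - ‖R‖ ^ 2 := by
    rw [hκ]
    exact Real.sq_sqrt (by linarith)
  have hκ1 : 1 ≤ κ := by
    rw [hκ]
    exact Real.one_le_sqrt.mpr (by linarith)
  have hκ0 : 0 < κ := by linarith
  have hpz : pz (κ⁻¹ • R) = p / κ := by
    unfold pz
    rw [norm_smul, norm_inv, Real.norm_of_nonneg hκ0.le]
    have e : 1 + (κ⁻¹ * ‖R‖) ^ 2 = (p / κ) ^ 2 := by
      field_simp
      linarith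
    rw [e]
    exact Real.sqrt_sq (by positivity)
  have hcf : ∀ x ∈ X, c x = κ * cf (κ⁻¹ • R) x := by
    intro x hx
    unfold cf
    rw [hpz, real_inner_smul_left, hcl x hx]
    field_simp
  have h1 : energy Z = κ * FE X (κ⁻¹ • R) := by
    rw [energy_image hσ.1]
    unfold FE
    rw [← mul_div_assoc, Finset.mul_sum]
    congr 1
    refine Finset.sum_congr rfl fun x hx => ?_
    rw [Finset.mul_sum]
    refine Finset.sum_congr rfl fun y hy => ?_
    rw [inv_dist hc hcd hx hy, hcf x hx, hcf y hy]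
    have e : κ * cf (κ⁻¹ • R) x * (κ * cf (κ⁻¹ • R) y) =
        κ ^ 2 * (cf (κ⁻¹ • R) x * cf (κ⁻¹ • R) y) := by ring
    rw [e, Real.sqrt_mul (by positivity), Real.sqrt_sq hκ0.le]
    ring
  rw [h1]
  have h2 := hP (κ⁻¹ • R)
  have h3 := FE_nonneg X (κ⁻¹ • R)
  nlinarith

theorem energy_pos {X : Finset E3} (hcard : 2 ≤ X.card) : 0 < energy X := by
  obtain ⟨a, ha, b, hb, hab⟩ := Finset.one_lt_card.mp (show 1 < X.card by omega)
  rw [energy_sum]
  have h1 : 1 / dist a b ≤ ∑ y ∈ X, 1 / dist a y :=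
    Finset.single_le_sum (f := fun y => 1 / dist a y) (fun _ _ => by positivity) hb
  have h2 : ∑ y ∈ X, 1 / dist a y ≤ ∑ x ∈ X, ∑ y ∈ X, 1 / dist x y :=
    Finset.single_le_sum (f := fun x => ∑ y ∈ X, 1 / dist x y)
      (fun _ _ => Finset.sum_nonneg fun _ _ => by positivity) ha
  have h3 : 0 < 1 / dist a b := by
    have := dist_pos.mpr hab
    positivity
  linarith

/-- A configuration of least energy in its conformal class is balanced. -/
theorem bal_of_least {Y : Finset E3} (hY : ∀ y ∈ Y, ‖y‖ = 1) (hcard : 2 ≤ Y.card)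
    (h : ∀ P, energy Y ≤ FE Y P) : bal Y = 0 := by
  have hE := energy_pos hcard
  obtain ⟨E, hEd⟩ : ∃ E, E = energy Y := ⟨_, rfl⟩
  rw [← hEd] at hE h
  have h1 : ∀ P, FE Y P ≤ pz P * E - inner ℝ P (bal Y) / 4 := by
    intro P
    rw [hEd, energy_sum, inner_bal]
    unfold FE
    have h2 : ∑ x ∈ Y, ∑ y ∈ Y, 1 / dist x y * Real.sqrt (cf P x * cf P y) ≤
        ∑ x ∈ Y, ∑ y ∈ Y, (1 / dist x y * pz P - 1 / dist x y * inner ℝ P (x + y) / 2) := by
      refine Finset.sum_le_sum fun x hx => Finset.sum_le_sum fun y hy => ?_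
      have h3 := cf_pos P (hY x hx)
      have h4 := cf_pos P (hY y hy)
      have h5 : Real.sqrt (cf P x * cf P y) ≤ (cf P x + cf P y) / 2 := by
        rw [Real.sqrt_le_left (by positivity)]
        nlinarith [sq_nonneg (cf P x - cf P y)]
      have h6 : (cf P x + cf P y) / 2 = pz P - inner ℝ P (x + y) / 2 := by
        unfold cf
        rw [inner_add_right]
        ring
      have h7 : (0 : ℝ) ≤ 1 / dist x y := by positivity
      rw [h6] at h5
      have h8 := mul_le_mul_of_nonneg_left h5 h7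
      calc _ ≤ _ := h8
        _ = _ := by ring
    have h3 : ∑ x ∈ Y, ∑ y ∈ Y, (1 / dist x y * pz P - 1 / dist x y * inner ℝ P (x + y) / 2) =
        pz P * ∑ x ∈ Y, ∑ y ∈ Y, 1 / dist x y -
          (∑ x ∈ Y, ∑ y ∈ Y, 1 / dist x y * inner ℝ P (x + y)) / 2 := by
      rw [Finset.mul_sum, Finset.sum_div, ← Finset.sum_sub_distrib]
      refine Finset.sum_congr rfl fun x _ => ?_
      rw [Finset.mul_sum, Finset.sum_div, ← Finset.sum_sub_distrib]
      refine Finset.sum_congr rfl fun y _ => ?_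
      ring
    rw [h3] at h2
    linarith
  have h2 : ∀ P, pz P ≤ 1 + ‖P‖ ^ 2 / 2 := by
    intro P
    unfold pz
    rw [Real.sqrt_le_left (by positivity)]
    nlinarith [sq_nonneg (‖P‖ ^ 2)]
  have h3 := (h ((1 / (4 * E)) • bal Y)).trans (h1 _)
  have h4 := h2 ((1 / (4 * E)) • bal Y)
  rw [real_inner_smul_left, real_inner_self_eq_norm_sq] at h3
  rw [norm_smul, Real.norm_of_nonneg (by positivity)] at h4
  obtain ⟨s, hs⟩ : ∃ s, s = ‖bal Y‖ ^ 2 := ⟨_, rfl⟩
  rw [mul_pow, ← hs] at h4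
  rw [← hs] at h3
  have h5 := mul_le_mul_of_nonneg_right h4 hE.le
  have h6 : E + 1 / (4 * E) * s / 4 ≤ E + s / (32 * E) := by
    have e : (1 + (1 / (4 * E)) ^ 2 * s / 2) * E = E + s / (32 * E) := by
      field_simp
      ring
    rw [e] at h5
    linarith
  have h7 : s / (32 * E) ≤ 0 := by
    have e : 1 / (4 * E) * s / 4 = 2 * (s / (32 * E)) := by
      field_simp
      ring
    rw [e] at h6
    linarith
  have h8 : s ≤ 0 := by
    by_contra hc
    push Not at hc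
    have : 0 < s / (32 * E) := by positivity
    linarith
  rw [hs] at h8
  have h9 : ‖bal Y‖ = 0 := by
    have := norm_nonneg (bal Y)
    nlinarith
  exact norm_eq_zero.mp h9

/-- Every conformal class contains a balanced configuration. -/
theorem exists_bal {n : ℕ} (hn : 3 ≤ n) {X : Finset E3} (hX : IsConfig n X) :
    ∃ Y, IsConfig n Y ∧ ConfEquiv X Y ∧ bal Y = 0 := by
  classical
  have hcard : 3 ≤ X.card := by rw [hX.1]; exact hn
  obtain ⟨P, hP⟩ := FE_min hX.2 hcard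
  have hc : ∀ x ∈ X, 0 < cf P x := fun x hx => cf_pos P (hX.2 x hx)
  have hconf : IsConf (bst P) X (X.image (bst P)) :=
    isConf_image hc (fun x hx y hy => dist_bst P (hX.2 x hx) (hX.2 y hy))
  have hYn : ∀ y ∈ X.image (bst P), ‖y‖ = 1 := by
    intro y hy
    obtain ⟨x, hx, rfl⟩ := Finset.mem_image.mp hy
    exact norm_bst P (hX.2 x hx)
  have hYc : IsConfig n (X.image (bst P)) := ⟨by rw [hconf.card, hX.1], hYn⟩
  have hYE := energy_bst hX.2 P
  obtain ⟨Y, hYd⟩ : ∃ Y, Y = X.image (bst P) := ⟨_, rfl⟩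
  rw [← hYd] at hconf hYn hYc hYE
  have hYcard : 2 ≤ Y.card := by rw [hYc.1]; omega
  refine ⟨Y, hYc, ⟨_, hconf⟩, ?_⟩
  apply bal_of_least hYn hYcard
  intro R
  rw [← energy_bst hYn R, hYE]
  have hc' : ∀ x ∈ Y, 0 < cf R x := fun x hx => cf_pos R (hYn x hx)
  have hconf' : IsConf (bst R) Y (Y.image (bst R)) :=
    isConf_image hc' (fun x hx y hy => dist_bst R (hYn x hx) (hYn y hy))
  refine least hX.2 (by omega) hP ?_ (hconf.comp hconf')
  intro y hy
  obtain ⟨x, hx, rfl⟩ := Finset.mem_image.mp hy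
  exact norm_bst R (hYn x hx)

/-- Existence and uniqueness of the configuration of least energy in a conformal class. -/
theorem class_least {n : ℕ} (hn : 3 ≤ n) {X : Finset E3} (hX : IsConfig n X) :
    ∃ Y, IsConfig n Y ∧ ConfEquiv X Y ∧ bal Y = 0 ∧ ∀ Z, IsConfig n Z → ConfEquiv X Z →
      energy Y ≤ energy Z ∧ (energy Z ≤ energy Y → Eqv Y Z) := by
  obtain ⟨Y, hY, ⟨φ, hφ⟩, hbal⟩ := exists_bal hn hX
  have hYcard : 2 ≤ Y.card := by rw [hY.1]; omega
  refine ⟨Y, hY, ⟨φ, hφ⟩, hbal, fun Z hZ hXZ => ?_⟩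
  obtain ⟨σ, hσ⟩ := hXZ
  obtain ⟨τ, hτ, _⟩ := hφ.symm
  have hYZ := hτ.comp hσ
  have h := bal_least hY.2 hZ.2 hYcard hYZ hbal
  exact ⟨h.1, fun hle => eqv_of_dist hY.2 hZ.2 hYZ.1 (h.2 hle)⟩

/-- An equilibrium has the least energy in its conformal class, and conformal maps which do not
increase its energy are isometries. -/
theorem equil_least {n : ℕ} (hn : 2 ≤ n) {X : Finset E3} (hX : IsConfig n X) (he : IsEquil X)
    {Z : Finset E3} (hZ : IsConfig n Z) {σ : E3 → E3} (hσ : IsConf σ X Z) :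
    energy X ≤ energy Z ∧
      (energy Z ≤ energy X → ∀ x ∈ X, ∀ y ∈ X, dist (σ x) (σ y) = dist x y) :=
  bal_least hX.2 hZ.2 (by rw [hX.1]; exact hn) hσ (bal_of_equil hX.2 he)

/-- Conformally equivalent equilibria are congruent. -/
theorem equil_unique {n : ℕ} (hn : 2 ≤ n) {X Y : Finset E3} (hX : IsConfig n X)
    (hY : IsConfig n Y) (heX : IsEquil X) (heY : IsEquil Y) (h : ConfEquiv X Y) : Eqv X Y := by
  obtain ⟨σ, hσ⟩ := h
  obtain ⟨τ, hτ, _⟩ := hσ.symm
  exact eqv_of_dist hX.2 hY.2 hσ.1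
    ((equil_least hn hX heX hY hσ).2 (equil_least hn hY heY hX hτ).1)

/-- Conformally equivalent minimisers are congruent. -/
theorem min_unique {n : ℕ} (hn : 3 ≤ n) {X Y : Finset E3} (hX : IsMin n X) (hY : IsMin n Y)
    (h : ConfEquiv X Y) : Eqv X Y := by
  have hid : ConfEquiv X X := ⟨id, Set.bijOn_id _, fun x _ y _ z _ w _ => rfl⟩
  obtain ⟨W, hW, _, _, hWl⟩ := class_least hn hX.1
  have h1 := (hWl X hX.1 hid).2 (hX.2 W hW)
  have h2 := (hWl Y hY.1 h).2 (hY.2 W hW)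
  exact h1.symm.trans h2

end

end Pool.Agent.CFC
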