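import Pool.Agent.CFC.Main
import Pool.Agent.Helper15.Thomson.OnePoleGood

/-!
The square of an orthogonal transformation is a rotation.
-/

namespace Pool.Agent.CFC

open Pool.Agent.Helper15.Thomson

noncomputable section

/-- A real polynomial of odd degree has a root. -/
theorem odd_root {P : Polynomial ℝ} (hP : P.Monic) (h : Odd P.natDegree) :
    ∃ x, P.IsRoot x := by
  have hpos : 0 < P.natDegree := h.pos
  have h1 : Filter.Tendsto (fun x => P.eval x) Filter.atTop Filter.atTop := by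
    apply P.tendsto_atTop_of_leadingCoeff_nonneg (Polynomial.natDegree_pos_iff_degree_pos.mp hpos)
    rw [hP.leadingCoeff]
    norm_num
  have hX : (-Polynomial.X : Polynomial ℝ).natDegree = 1 := by
    rw [Polynomial.natDegree_neg, Polynomial.natDegree_X]
  have hl : (-(P.comp (-Polynomial.X))).leadingCoeff = 1 := by
    rw [Polynomial.leadingCoeff_neg, Polynomial.leadingCoeff_comp (by rw [hX]; exact one_ne_zero),
      hP.leadingCoeff, Polynomial.leadingCoeff_neg, Polynomial.leadingCoeff_X, h.neg_one_pow]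
    norm_num
  have h2 : Filter.Tendsto (fun x => (-(P.comp (-Polynomial.X))).eval x) Filter.atTop
      Filter.atTop := by
    apply Polynomial.tendsto_atTop_of_leadingCoeff_nonneg
    · rw [← Polynomial.natDegree_pos_iff_degree_pos, Polynomial.natDegree_neg,
        Polynomial.natDegree_comp, hX, mul_one]
      exact hpos
    · rw [hl]
      norm_num
  obtain ⟨a, ha⟩ := (h1.eventually_ge_atTop 0).exists
  obtain ⟨b, hb⟩ := (h2.eventually_ge_atTop 0).exists
  have hb' : P.eval (-b) ≤ 0 := by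
    rw [Polynomial.eval_neg, Polynomial.eval_comp, Polynomial.eval_neg, Polynomial.eval_X] at hb
    linarith
  have hc : Continuous fun x => P.eval x := P.continuous
  have := mem_range_of_exists_le_of_exists_ge hc ⟨_, hb'⟩ ⟨_, ha⟩
  obtain ⟨x, hx⟩ := this
  exact ⟨x, hx⟩

/-- An orthogonal transformation of the space has an eigenvector with eigenvalue `1` or `-1`. -/
theorem exists_eig (M : E3 ≃ₗᵢ[ℝ] E3) :
    ∃ (u : E3) (ε : ℝ), ‖u‖ = 1 ∧ ε ^ 2 = 1 ∧ M u = ε • u := by
  let L : E3 →ₗ[ℝ] E3 := M.toLinearEquiv.toLinearMap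
  have hodd : Odd L.charpoly.natDegree := by
    rw [LinearMap.charpoly_natDegree]
    have : Module.finrank ℝ E3 = 3 := by simp
    rw [this]
    decide
  obtain ⟨ε, hε⟩ := odd_root L.charpoly_monic hodd
  obtain ⟨v, hv⟩ := (Module.End.hasEigenvalue_iff_isRoot_charpoly L ε |>.mpr hε).exists_hasEigenvector
  have hv0 : v ≠ 0 := hv.2
  have hv' : M v = ε • v := hv.apply_eq_smul
  have hn : ‖v‖ ≠ 0 := norm_ne_zero_iff.mpr hv0
  refine ⟨‖v‖⁻¹ • v, ε, ?_, ?_, ?_⟩
  · rw [norm_smul, norm_inv, norm_norm, inv_mul_cancel₀ hn]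
  · have h1 : ‖M v‖ = ‖v‖ := M.norm_map v
    rw [hv', norm_smul] at h1
    have h2 : ‖ε‖ = 1 := by
      field_simp at h1
      exact h1
    rw [← sq_abs, ← Real.norm_eq_abs, h2, one_pow]
  · rw [map_smul, hv', smul_comm]

theorem pt_add (w w' : ℂ) (h h' : ℝ) : pt w h + pt w' h' = pt (w + w') (h + h') := by
  ext i
  fin_cases i <;> simp [pt]

theorem smul_pt (c : ℝ) (w : ℂ) (h : ℝ) : c • pt w h = pt (c * w) (c * h) := by
  ext i
  fin_cases i <;> simp [pt]

/-- The square of an orthogonal transformation is a rotation. -/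
theorem sq_rot (M : E3 ≃ₗᵢ[ℝ] E3) : ∃ (Q : E3 ≃ₗᵢ[ℝ] E3) (b : ℂ), ‖b‖ = 1 ∧
    ∀ v, Q (M (M v)) = pt (b * hz (Q v)) ((Q v) 2) := by
  obtain ⟨u, ε, hu, hε, hMu⟩ := exists_eig M
  have he3 : ‖pt 0 1‖ = 1 := by rw [norm_pt_eq_one]; simp
  obtain ⟨Q, hQ⟩ := exists_iso (ι := Unit) (fun _ => u) (fun _ => pt 0 1) (by
    intro _ _
    rw [real_inner_self_eq_norm_sq, real_inner_self_eq_norm_sq, hu, he3])
  have hQu : Q u = pt 0 1 := hQ ()
  let N : E3 ≃ₗᵢ[ℝ] E3 := (Q.symm.trans M).trans Q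
  have hN : ∀ v, N v = Q (M (Q.symm v)) := fun v => rfl
  have hNe : N (pt 0 1) = ε • pt 0 1 := by
    rw [hN, ← hQu, Q.symm_apply_apply, hMu, map_smul]
  have hin : ∀ v : E3, inner ℝ v (pt 0 1) = v 2 := by
    intro v
    rw [EuclideanSpace.inner_eq_star_dotProduct]
    simp [pt, dotProduct, Fin.sum_univ_three]
  have hN0 : ∀ w : ℂ, (N (pt w 0)) 2 = 0 := by
    intro w
    have h1 : inner ℝ (N (pt w 0)) (N (pt 0 1)) = inner ℝ (pt w 0) (pt 0 1) := N.inner_map_map _ _
    rw [hNe, real_inner_smul_right, hin, hin] at h1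
    have h2 : (pt w 0) 2 = 0 := by simp
    rw [h2] at h1
    have h3 : ε ≠ 0 := by
      intro h0
      rw [h0] at hε
      norm_num at hε
    exact (mul_eq_zero.mp h1).resolve_left h3
  let f : ℂ →ₗᵢ[ℝ] ℂ :=
    { toFun := fun w => hz (N (pt w 0))
      map_add' := by
        intro w w'
        have e1 : pt (w + w') 0 = pt w 0 + pt w' 0 := by rw [pt_add, add_zero]
        rw [e1, map_add]
        have e2 := pt_hz (N (pt w 0))
        have e3 := pt_hz (N (pt w' 0))
        rw [← e2, ← e3, pt_add, hz_pt, hz_pt, hz_pt]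
      map_smul' := by
        intro c w
        have e1 : pt (c • w) 0 = c • pt w 0 := by
          rw [smul_pt, mul_zero]
          rfl
        rw [e1, map_smul]
        have e2 := pt_hz (N (pt w 0))
        rw [← e2, smul_pt, hz_pt, hz_pt]
        rfl
      norm_map' := by
        intro w
        change ‖hz (N (pt w 0))‖ = ‖w‖
        have h1 : ‖N (pt w 0)‖ = ‖pt w 0‖ := N.norm_map _
        rw [← pt_hz (N (pt w 0)), hN0, norm_pt, norm_pt] at h1
        simpa using h1 }
  have hf : ∀ w, N (pt w 0) = pt (f w) 0 := by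
    intro w
    conv_lhs => rw [← pt_hz (N (pt w 0)), hN0]
    rfl
  have hNN : ∀ w h, N (pt w h) = pt (f w) (ε * h) := by
    intro w h
    have e1 : pt w h = pt w 0 + h • pt 0 1 := by
      rw [smul_pt, pt_add]
      simp
    rw [e1, map_add, map_smul, hNe, hf, smul_smul, smul_pt, pt_add]
    simp [mul_comm]
  obtain ⟨b, hb, hbb⟩ : ∃ b : ℂ, ‖b‖ = 1 ∧ ∀ w, f (f w) = b * w := by
    obtain ⟨a, ha⟩ := linear_isometry_complex (f.toLinearIsometryEquiv rfl)
    have hfe : ∀ w, f w = f.toLinearIsometryEquiv rfl w := fun w => rfl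
    rcases ha with ha | ha
    · refine ⟨a * a, by rw [norm_mul, Circle.norm_coe, mul_one], fun w => ?_⟩
      rw [hfe, hfe, ha, rotation_apply, rotation_apply, mul_assoc]
    · refine ⟨1, norm_one, fun w => ?_⟩
      rw [hfe, hfe, ha]
      change (a : ℂ) * (starRingEnd ℂ) (a * (starRingEnd ℂ) w) = 1 * w
      rw [map_mul, Complex.conj_conj, ← mul_assoc, Complex.mul_conj, one_mul]
      simp
  refine ⟨Q, b, hb, fun v => ?_⟩
  have h1 : Q (M (M v)) = N (N (Q v)) := by
    rw [hN, hN, Q.symm_apply_apply, Q.symm_apply_apply]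
  rw [h1]
  conv_lhs => rw [← pt_hz (Q v)]
  rw [hNN, hNN, hbb, ← mul_assoc, ← sq, hε, one_mul]

end

end Pool.Agent.CFC
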