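import Pool.Agent.CFC.Rot

/-!
Configurations with a conformal symmetry of odd order.
-/

namespace Pool.Agent.CFC

open Pool.Agent.Helper15.Thomson

noncomputable section

/-- `X` has a conformal symmetry of order `k`. -/
def ConfSym (k : ℕ) (X : Finset E3) : Prop :=
  ∃ σ, IsConf σ X X ∧ (∀ x ∈ X, σ^[k] x = x) ∧ ∀ j, 0 < j → j < k → ∃ x ∈ X, σ^[j] x ≠ x

/-- `X` has least energy among the `n`-point configurations with a conformal symmetry of
order `k`. -/
def IsMinSym (n k : ℕ) (X : Finset E3) : Prop :=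
  IsConfig n X ∧ ConfSym k X ∧ ∀ Y, IsConfig n Y → ConfSym k Y → energy X ≤ energy Y

theorem iter_mem {X : Finset E3} {σ : E3 → E3} (h : Set.MapsTo σ X X) (j : ℕ) {x : E3}
    (hx : x ∈ X) : σ^[j] x ∈ X := h.iterate j hx

theorem card_of_sym {k : ℕ} (hk : 3 ≤ k) {X : Finset E3} (h : ConfSym k X) : 3 ≤ X.card := by
  classical
  obtain ⟨σ, hσ, hk', hj⟩ := h
  by_contra hc
  push Not at hc
  obtain ⟨x, hx, hxne⟩ := hj 2 (by norm_num) (by omega)
  have h1 : σ x ∈ X := hσ.1.mapsTo hx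
  have h2 : σ (σ x) ∈ X := hσ.1.mapsTo h1
  have hne : σ (σ x) ≠ x := hxne
  have hne1 : σ x ≠ x := by
    intro he
    exact hne (by rw [he, he])
  have hne2 : σ (σ x) ≠ σ x := by
    intro he
    exact hne1 (hσ.1.injOn h1 hx he)
  have h3 : ({x, σ x, σ (σ x)} : Finset E3) ⊆ X := by
    intro y hy
    rw [Finset.mem_insert, Finset.mem_insert, Finset.mem_singleton] at hy
    rcases hy with rfl | rfl | rfl
    · exact hx
    · exact h1
    · exact h2
  have h4 : ({x, σ x, σ (σ x)} : Finset E3).card = 3 := by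
    rw [Finset.card_insert_of_notMem, Finset.card_insert_of_notMem, Finset.card_singleton]
    · rw [Finset.mem_singleton]
      exact hne2.symm
    · rw [Finset.mem_insert, Finset.mem_singleton, not_or]
      exact ⟨hne1.symm, hne.symm⟩
  have := Finset.card_le_card h3
  omega

/-- The iterates of an orthogonal transformation. -/
theorem exists_iter (T : E3 ≃ₗᵢ[ℝ] E3) (m : ℕ) : ∃ M : E3 ≃ₗᵢ[ℝ] E3, ∀ v, M v = T^[m] v := by
  induction m with
  | zero => exact ⟨LinearIsometryEquiv.refl ℝ E3, fun v => rfl⟩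
  | succ m ih =>
    obtain ⟨M, hM⟩ := ih
    refine ⟨M.trans T, fun v => ?_⟩
    rw [Function.iterate_succ_apply', ← hM]
    rfl

/-- An isometric symmetry of odd order `k` gives an axis of order `k`. -/
theorem axis_of_isom {k : ℕ} (hk : 3 ≤ k) (hodd : Odd k) {Y : Finset E3}
    (hY : ∀ y ∈ Y, ‖y‖ = 1) {ρ : E3 → E3} (hρ : Set.MapsTo ρ Y Y)
    (hd : ∀ x ∈ Y, ∀ y ∈ Y, dist (ρ x) (ρ y) = dist x y) (hk' : ∀ y ∈ Y, ρ^[k] y = y)
    (hj : ∀ j, 0 < j → j < k → ∃ y ∈ Y, ρ^[j] y ≠ y) : HasAxis k Y := by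
  obtain ⟨T, hT⟩ := exists_iso (ι := Y) (fun y => (y : E3)) (fun y => ρ y) (by
    intro x y
    rw [inner_eq_dist (hY x x.2) (hY y y.2),
      inner_eq_dist (hY _ (hρ x.2)) (hY _ (hρ y.2)), hd x x.2 y y.2])
  have hT' : ∀ y ∈ Y, T y = ρ y := fun y hy => hT ⟨y, hy⟩
  have hTi : ∀ (j : ℕ), ∀ y ∈ Y, T^[j] y = ρ^[j] y := by
    intro j
    induction j with
    | zero => intro y _; rfl
    | succ j ih =>
      intro y hy
      rw [Function.iterate_succ_apply', Function.iterate_succ_apply', ih y hy,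
        hT' _ (hρ.iterate j hy)]
  obtain ⟨m, hm⟩ := hodd
  obtain ⟨M, hM⟩ := exists_iter T (m + 1)
  obtain ⟨Q, b, hb, hQ⟩ := sq_rot M
  have hMM : ∀ y ∈ Y, M (M y) = ρ y := by
    intro y hy
    rw [hM, hM, ← Function.iterate_add_apply]
    have e : m + 1 + (m + 1) = k + 1 := by omega
    rw [e, Function.iterate_succ_apply, hT' y hy, hTi k _ (hρ hy), hk' _ (hρ hy)]
  have hQρ : ∀ y ∈ Y, Q (ρ y) = pt (b * hz (Q y)) ((Q y) 2) := by
    intro y hy
    rw [← hMM y hy]
    exact hQ y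
  have hQj : ∀ (j : ℕ), ∀ y ∈ Y, Q (ρ^[j] y) = pt (b ^ j * hz (Q y)) ((Q y) 2) := by
    intro j
    induction j with
    | zero =>
      intro y _
      rw [Function.iterate_zero_apply, pow_zero, one_mul, pt_hz]
    | succ j ih =>
      intro y hy
      rw [Function.iterate_succ_apply', hQρ _ (hρ.iterate j hy), ih y hy, hz_pt, pt_two,
        ← mul_assoc, ← pow_succ']
  have hbj : ∀ l, 0 < l → l < k → b ^ l ≠ 1 := by
    intro l h0 hl he
    obtain ⟨y, hy, hne⟩ := hj l h0 hl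
    apply hne
    apply Q.injective
    rw [hQj l y hy, he, one_mul, pt_hz]
  have hbk : b ^ k = 1 := by
    obtain ⟨y, hy, hne⟩ := hj 1 (by norm_num) (by omega)
    have hz0 : hz (Q y) ≠ 0 := by
      intro h0
      apply hne
      apply Q.injective
      rw [hQj 1 y hy, h0, mul_zero, ← h0, pt_hz]
    have h1 := hQj k y hy
    rw [hk' y hy] at h1
    have h2 := congrArg hz h1
    rw [hz_pt] at h2
    exact (mul_right_cancel₀ hz0 (by rw [one_mul]; exact h2.symm))
  have hprim : IsPrimitiveRoot b k := IsPrimitiveRoot.mk_of_lt b (by omega) hbk hbj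
  have : NeZero k := ⟨by omega⟩
  obtain ⟨i, _, hi⟩ := hprim.eq_pow_of_pow_eq_one (zt_prim (show k ≠ 0 by omega)).pow_eq_one
  refine ⟨Q, fun y hy => ?_⟩
  have h1 : Q.symm (rotZ (2 * Real.pi / k) (Q y)) = ρ^[i] y := by
    apply Q.injective
    rw [Q.apply_symm_apply, hQj i y hy, hi]
    conv_lhs => rw [← pt_hz (Q y)]
    rw [rotZ_pt]
    rfl
  rw [h1]
  exact hρ.iterate i hy

/-- A configuration with an axis of order `k` has a symmetry of order `k`. -/
theorem sym_of_axis {k : ℕ} (hk : 3 ≤ k) {n : ℕ} (hn : 3 ≤ n) {X : Finset E3}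
    (hX : IsConfig n X) (h : HasAxis k X) : ConfSym k X := by
  classical
  obtain ⟨Q, hQ⟩ := h
  obtain ⟨σ, hσ⟩ : ∃ σ : E3 → E3, σ = fun x => Q.symm (rotZ (2 * Real.pi / k) (Q x)) := ⟨_, rfl⟩
  have hk0 : k ≠ 0 := by omega
  have hrot : ∀ v : E3, rotZ (2 * Real.pi / k) v = iso (zt k) (norm_zt k) 1 (one_pow 2) v := by
    intro v
    conv_lhs => rw [← pt_hz v]
    conv_rhs => rw [← pt_hz v]
    rw [rotZ_pt, iso_pt, one_mul]
    rfl
  have hdist : ∀ x y, dist (σ x) (σ y) = dist x y := by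
    intro x y
    rw [hσ]
    simp only [hrot]
    rw [Q.symm.dist_map, (iso (zt k) (norm_zt k) 1 (one_pow 2)).dist_map, Q.dist_map]
  have hmaps : Set.MapsTo σ X X := by
    intro x hx
    rw [hσ]
    exact hQ x hx
  have hinj : Set.InjOn σ X := by
    intro x _ y _ he
    have := hdist x y
    rw [he, dist_self] at this
    exact dist_eq_zero.mp this.symm
  have hbij : Set.BijOn σ X X :=
    ⟨hmaps, hinj, Finset.surjOn_of_injOn_of_card_le σ hmaps hinj le_rfl⟩
  have hQj : ∀ (j : ℕ) (x : E3), Q (σ^[j] x) = pt (zt k ^ j * hz (Q x)) ((Q x) 2) := by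
    intro j x
    induction j with
    | zero => rw [Function.iterate_zero_apply, pow_zero, one_mul, pt_hz]
    | succ j ih =>
      rw [Function.iterate_succ_apply']
      have e : ∀ y, Q (σ y) = pt (zt k * hz (Q y)) ((Q y) 2) := by
        intro y
        rw [hσ]
        simp only [Q.apply_symm_apply]
        conv_lhs => rw [← pt_hz (Q y)]
        rw [rotZ_pt]
        rfl
      rw [e, ih, hz_pt, pt_two, ← mul_assoc, ← pow_succ']
  refine ⟨σ, ⟨hbij, fun x _ y _ z _ w _ => ?_⟩, fun x _ => ?_, fun j h0 hj => ?_⟩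
  · rw [hdist, hdist, hdist, hdist]
  · apply Q.injective
    rw [hQj, (zt_prim hk0).pow_eq_one, one_mul, pt_hz]
  · have hex : ∃ x ∈ X, hz (Q x) ≠ 0 := by
      by_contra hc
      push Not at hc
      have hsub : X.image Q ⊆ ({pt 0 1, pt 0 (-1)} : Finset E3) := by
        intro y hy
        obtain ⟨x, hx, rfl⟩ := Finset.mem_image.mp hy
        have h1 : ‖Q x‖ = 1 := by rw [Q.norm_map]; exact hX.2 x hx
        rw [← pt_hz (Q x), hc x hx, norm_pt_eq_one, norm_zero] at h1
        have h2 : (Q x) 2 = 1 ∨ (Q x) 2 = -1 := by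
          have e : ((Q x) 2 - 1) * ((Q x) 2 + 1) = 0 := by linarith
          rcases mul_eq_zero.mp e with e | e
          · left; linarith
          · right; linarith
        rw [← pt_hz (Q x), hc x hx, Finset.mem_insert, Finset.mem_singleton]
        rcases h2 with h2 | h2
        · left; rw [h2]
        · right; rw [h2]
      have h1 := Finset.card_le_card hsub
      rw [Finset.card_image_of_injective _ Q.injective, hX.1] at h1
      have h2 : ({pt 0 1, pt 0 (-1)} : Finset E3).card ≤ 2 := Finset.card_le_two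
      omega
    obtain ⟨x, hx, hx0⟩ := hex
    refine ⟨x, hx, fun he => ?_⟩
    have h1 := hQj j x
    rw [he] at h1
    have h2 := congrArg hz h1
    rw [hz_pt] at h2
    have h3 : zt k ^ j = 1 := mul_right_cancel₀ hx0 (by rw [one_mul]; exact h2.symm)
    exact (zt_prim hk0).pow_ne_one_of_pos_of_lt h0.ne' hj h3

/-- The least configuration in the conformal class of a configuration with a conformal symmetry
of odd order `k` has an axis of order `k`. -/
theorem axis_of_sym {k : ℕ} (hk : 3 ≤ k) (hodd : Odd k) {n : ℕ} {X : Finset E3}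
    (hX : IsConfig n X) (hs : ConfSym k X) {Y : Finset E3} (hY : IsConfig n Y)
    (hXY : ConfEquiv X Y) (hbal : bal Y = 0) : HasAxis k Y := by
  have hcard := card_of_sym hk hs
  have hYcard : 2 ≤ Y.card := by rw [hY.1, ← hX.1]; omega
  obtain ⟨σ, hσ, hk', hj⟩ := hs
  obtain ⟨φ, hφ⟩ := hXY
  obtain ⟨τ, hτ, h1, h2⟩ := hφ.symm
  obtain ⟨ρ, hρ⟩ : ∃ ρ, ρ = φ ∘ σ ∘ τ := ⟨_, rfl⟩
  have hρc : IsConf ρ Y Y := by
    rw [hρ]
    exact (hτ.comp hσ).comp hφ
  have hd := (bal_least hY.2 hY.2 hYcard hρc hbal).2 le_rfl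
  have hit : ∀ (j : ℕ), ∀ x ∈ X, ρ^[j] (φ x) = φ (σ^[j] x) := by
    intro j
    induction j with
    | zero => intro x _; rfl
    | succ j ih =>
      intro x hx
      rw [Function.iterate_succ_apply', Function.iterate_succ_apply', ih x hx, hρ]
      change φ (σ (τ (φ (σ^[j] x)))) = _
      rw [h1 _ (hσ.1.mapsTo.iterate j hx)]
  apply axis_of_isom hk hodd hY.2 hρc.1.mapsTo hd
  · intro y hy
    have hx := hτ.1.mapsTo hy
    rw [← h2 y hy, hit k _ hx, hk' _ hx]
  · intro j h0 hjk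
    obtain ⟨x, hx, hne⟩ := hj j h0 hjk
    refine ⟨φ x, hφ.1.mapsTo hx, fun he => hne ?_⟩
    rw [hit j x hx] at he
    exact hφ.1.injOn (hσ.1.mapsTo.iterate j hx) hx he

/-- Among the `n`-point configurations with a conformal symmetry of odd order `k > n / 3` the
minimiser of the Coulomb energy exists and is unique. -/
theorem sym_unique {n k : ℕ} (hk : 3 ≤ k) (hodd : Odd k) (hn : n < 3 * k)
    (hex : ∃ X, IsConfig n X ∧ ConfSym k X) :
    ∃ X, IsMinSym n k X ∧ HasAxis k X ∧ ∀ Y, IsMinSym n k Y → Eqv X Y := by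
  have key : ∀ X, IsConfig n X → ConfSym k X → ∃ Y, IsConfig n Y ∧ HasAxis k Y ∧
      energy Y ≤ energy X ∧ (energy X ≤ energy Y → Eqv Y X) := by
    intro X hX hs
    have hcard := card_of_sym hk hs
    rw [hX.1] at hcard
    obtain ⟨Y, hY, hXY, hbal, hl⟩ := class_least hcard hX
    have hid : ConfEquiv X X := ⟨id, Set.bijOn_id _, fun x _ y _ z _ w _ => rfl⟩
    exact ⟨Y, hY, axis_of_sym hk hodd hX hs hY hXY hbal, hl X hX hid⟩
  obtain ⟨X1, hX1, hs1⟩ := hex
  have hn3 : 3 ≤ n := by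
    rw [← hX1.1]
    exact card_of_sym hk hs1
  obtain ⟨Y1, hY1, ha1, _⟩ := key X1 hX1 hs1
  obtain ⟨X0, hX0, hu⟩ := main' hk hn ⟨Y1, hY1, ha1⟩
  refine ⟨X0, ⟨hX0.1, sym_of_axis hk hn3 hX0.1 hX0.2.1, ?_⟩, hX0.2.1, ?_⟩
  · intro X hX hs
    obtain ⟨Y, hY, ha, hle, _⟩ := key X hX hs
    exact (hX0.2.2 Y hY ha).trans hle
  · intro X hX
    obtain ⟨Y, hY, ha, hle, he⟩ := key X hX.1 hX.2.1
    have h1 : energy X ≤ energy X0 := hX.2.2 X0 hX0.1 (sym_of_axis hk hn3 hX0.1 hX0.2.1)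
    have h2 : energy X0 ≤ energy Y := hX0.2.2 Y hY ha
    have h3 : IsMinAxis n k Y := ⟨hY, ha, fun Z hZ hZa => by
      have := hX0.2.2 Z hZ hZa
      linarith⟩
    exact (hu Y h3).trans (he (by linarith))

end

end Pool.Agent.CFC
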